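import Pool.Agent.U536.CF.Scales
import Pool.Agent.Results.MP_a57f33_nt.AlmostAllArguments

/-!
# Relations between motivic multiple zeta values at integers with large common factors with the values of arithmetic
# functions

A pattern in `k` variables is a nonempty list of letters `b + u_1 s_1 + ... + u_k s_k`; at a tuple `s` of natural numbers
it gives an index. The first letters may be constant. A lift of the real multiple zeta values is a function `Y` from the
indices to a commutative `ℚ`-algebra `M` with a homomorphism `M → ℝ` which maps `Y(u)` to `ζ(u)`: for example the motivic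
multiple zeta values, with the period map. The tuple `s` is bad (for `D`, `H`) if a polynomial relation of degree at most
`D` with integer coefficients at most `H` holds between the values `Y(w_i(s))` of a lift, but is not a consequence of the
stuffle product and of Euler's formula: it fails for a function `Z` from the indices to a commutative `ℚ`-algebra which
satisfies the stuffle product formula and the relations `Z(2 m) = c_m Z(2)^m`, `ζ(2 m) = c_m ζ(2)^m`. Both are
consequences of the regularized double shuffle relations.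

Let `F_1, …, F_k` be positive multiplicative functions of at most polynomial growth such that `F_i p ≤ M p` for the large
primes `p`, with different values at different large primes; for example Euler's function or the sum of the divisors. Let
`b < 1`, `0 ≤ c < 2 b - 1`, `θ ≥ 0` and `ρ ≤ 1` with `k (1 - ρ + θ) < 1`. An argument tuple `m ∈ [1, N] ^ k` is good if
for EVERY tuple `v` of integers `v_i ≥ exp ((log N)^b)` with `gcd(v_i, F_i(m_i)) ≥ v_i^ρ`, NO tuple `s` with `|s_i - v_i|
≤ v_i ^ θ` in a cone `T ≤ s_i ≤ κ T` is bad for `D` and `H = C ^ T`.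

Theorem. For all large `N`, all but `N^k exp (-(log N)^c)` of the `m ∈ [1, N] ^ k` are good, if the constant fronts of the
patterns are even (`2a, ..., 2a`, or empty), unconditionally; for arbitrary patterns the same holds with the relations
between the real multiple zeta values of the (finitely many) fronts in place of Euler's formula. The tuples `v` include
all tuples of large divisors `v_i` of the `F_i(m_i)` and their multiples by small integers; for Euler's function, the
tuples of the orders of elements of the groups of units modulo the `m_i`.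

Proof. But for few exceptional `m ≤ N`, the number of `m` with `g ∣ F(m)` is at most `N τ_J(g) / g` up to a factor `exp
((log N)^s)`, `J = (log N)^a`, `a < s < b`, for all `g`: write `m = k' u` with `u` squarefree and composed of primes
larger than `N^(1/J)`, `k' ≤ exp (4 (log N)^a)`. The exceptional tuples at all scales together with their windows have a
power saving, and so have the tuples of the large divisors of their coordinates; the inequality `τ_J^q ≤ τ_K` for `K ≥
J^q` with Hölder's inequality for tuples bounds the sum of `∏ τ_J(g_i) / g_i` over these. The file `AlmostAllArguments` of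
the starting library bounds the number of the bad tuples in the boxes `[N, κ N] ^ k` by `K N ^ (k - 1)`.
-/

set_option autoImplicit false

namespace Pool.Agent.Results.MP_a57f33_nt.CommonFactors

open Pool.Agent.N733.TG (LM lm_totient lm_sigma)
open Pool.Agent.U536.CF (Common common_of_dvd common_order common_scales')
open Pool.Agent.Results.MP_a57f33_nt.AlmostAllArguments
  (Lift EulerFormula NotConsequence)
open Pool.Agent.Results.MP_03df5c_nt.AlmostAllArguments
  (mzv Letter index AdmissiblePattern fronts EvenFront HasStuffle Transfers Few)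

/-- For all large `N`, for all but `N^k exp (-(log N)^c)` of the tuples `m ∈ [1, N] ^ k`, for EVERY tuple `v` of integers `v_i
≥ exp ((log N)^b)` with `gcd(v_i, F_i(m_i)) ≥ v_i^ρ`, the property `E (C ^ T)` fails for ALL tuples `s` with `|s_i - v_i|
≤ v_i ^ θ` and `T ≤ s_i ≤ κ T`, `T ≥ 1`. -/
def FewNear {k : ℕ} (κ : ℕ) (C : ℝ) (F : Fin k → ℕ → ℕ) (θ ρ b c : ℝ) (E : ℝ → (Fin k → ℕ) → Prop) : Prop :=
  ∃ N₀ : ℕ, ∀ N : ℕ, N₀ ≤ N →
    ({m : Fin k → ℕ | (∀ i, 1 ≤ m i ∧ m i ≤ N) ∧ ∃ v : Fin k → ℕ, (∀ i, Common (F i) b ρ N (m i) (v i)) ∧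
      ∃ (s : Fin k → ℕ) (T : ℕ), 1 ≤ T ∧ (∀ i, T ≤ s i ∧ s i ≤ κ * T) ∧ (∀ i, |(s i : ℝ) - v i| ≤ (v i : ℝ) ^ θ) ∧
      E (C ^ T) s}.ncard : ℝ) ≤ (N : ℝ) ^ k * Real.exp (-(Real.log N ^ c))

lemma pow_bound (C : ℝ) {N T : ℕ} (h : T ≤ 2 * N) : C ^ T ≤ ((max |C| 1) ^ 2) ^ N := by
  have h5 : (1 : ℝ) ≤ max |C| 1 := le_max_right _ _
  calc C ^ T ≤ |C ^ T| := le_abs_self _
    _ = |C| ^ T := abs_pow C T
    _ ≤ (max |C| 1) ^ T := pow_le_pow_left₀ (abs_nonneg C) (le_max_left _ _) T
    _ ≤ (max |C| 1) ^ (2 * N) := pow_le_pow_right₀ h5 h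
    _ = _ := pow_mul _ _ _

lemma near_of_few {k : ℕ} (hk : 1 ≤ k) (κ : ℕ) (C : ℝ) {F : Fin k → ℕ → ℕ} (hF : ∀ i, LM (F i)) {θ ρ b c : ℝ} (hθ : 0 ≤ θ)
    (hρ : ρ ≤ 1) (hk1 : k * (1 - ρ + θ) < 1) (hb : b < 1) (hc : 0 ≤ c) (hcb : c < 2 * b - 1)
    {E : ℝ → (Fin k → ℕ) → Prop} (hE : ∀ H H' s, H ≤ H' → E H s → E H' s)
    (h : Few (2 * κ) E) : FewNear κ C F θ ρ b c E := by
  obtain ⟨K, hK⟩ := h
  obtain ⟨N₁, hN₁⟩ := hK ((max |C| 1) ^ 2)
  obtain ⟨N₀, hN₀⟩ := common_scales' hk κ (fun T s => E (C ^ T) s)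
    (fun N s => E (((max |C| 1) ^ 2) ^ N) s)
    (fun N T s h1 h2 h3 => hE _ _ s (pow_bound C h2.le) h3)
    ⟨K, N₁, fun N hN => hN₁ N hN⟩ hF hθ hρ hk1 hb hc hcb
  refine ⟨N₀, fun N hN => le_trans (le_of_eq ?_) (hN₀ N hN)⟩
  congr 2
  ext m
  constructor
  · rintro ⟨h1, v, hv, s, T, h2, h3, h4, h5⟩
    exact ⟨h1, fun h => h v hv s T h2 h3 h4 h5⟩
  · rintro ⟨h1, h2⟩
    push Not at h2
    obtain ⟨v, hv, s, T, h2, h3, h4, h5⟩ := h2
    exact ⟨h1, v, hv, s, T, h2, h3, h4, h5⟩

lemma not_mono {k r : ℕ} (w : Fin r → List (Letter k)) (D : ℕ)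
    (F : ∀ (A : Type) [CommRing A] [Algebra ℚ A], (List ℕ → A) → Prop) (H H' : ℝ) (s : Fin k → ℕ) (h : H ≤ H')
    (hB : NotConsequence w D F H s) : NotConsequence w D F H' s := by
  obtain ⟨M, i1, i2, Y, A, i3, i4, Z, h1, h2, h3, P, h4, h5, h6⟩ := hB
  exact ⟨M, i1, i2, Y, A, i3, i4, Z, h1, h2, h3, P, h4, fun m => (h5 m).trans h, h6⟩

/-- **Relations between motivic multiple zeta values at integers with large common factors with the values of arithmetic
functions.** Let `w_1, ..., w_r` be admissible patterns in `k ≥ 1` variables, `D`, `κ` natural numbers, `C` a real number,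
`F_1, ..., F_k` functions with `LM`, `θ ≥ 0`, `ρ ≤ 1`, `k (1 - ρ + θ) < 1`, `b < 1`, `0 ≤ c < 2 b - 1`. For all large `N`,
for all but `N^k exp (-(log N)^c)` of the `m ∈ [1, N] ^ k`, for EVERY tuple `v` of integers `v_i ≥ exp ((log N)^b)` with
`gcd(v_i, F_i(m_i)) ≥ v_i^ρ`, for all tuples `s` with `|s_i - v_i| ≤ v_i ^ θ` and `T ≤ s_i ≤ κ T` all relations of degree
at most `D` and height at most `C ^ T` between the values of a lift at the indices `w_i(s)` are consequences of the
stuffle product and (1) of Euler's formula, if the fronts are even, (2) of the relations between the real multiple zeta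
values of the fronts. Euler's function and the sum of the divisors satisfy `LM`. Divisors `v_i ≥ exp ((log N)^b)` of
`F_i(m_i)` are such integers, and for Euler's function the orders `≥ exp ((log N)^b)` of the units modulo `m_i`. -/
theorem result :
    (∀ (k r : ℕ), 1 ≤ k → ∀ w : Fin r → List (Letter k), (∀ i, AdmissiblePattern (w i)) → ∀ (D κ : ℕ) (C : ℝ)
      (F : Fin k → ℕ → ℕ), (∀ i, LM (F i)) → ∀ θ ρ b c : ℝ, 0 ≤ θ → ρ ≤ 1 → k * (1 - ρ + θ) < 1 →
      b < 1 → 0 ≤ c → c < 2 * b - 1 →
      ((∀ i, EvenFront (w i)) → FewNear κ C F θ ρ b c (NotConsequence w D fun _ _ _ Z => EulerFormula Z)) ∧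
      FewNear κ C F θ ρ b c (NotConsequence w D fun _ _ _ Z => Transfers (fronts w) Z)) ∧
    (LM Nat.totient ∧ LM (fun m => ∑ d ∈ m.divisors, d)) ∧
    (∀ (f : ℕ → ℕ) (b ρ : ℝ) (N m w : ℕ), ρ ≤ 1 → Real.exp (Real.log N ^ b) ≤ (w : ℝ) → w ∣ f m → Common f b ρ N m w) ∧
    ∀ (b ρ : ℝ) (N m : ℕ), ρ ≤ 1 → ∀ x : (ZMod m)ˣ, Real.exp (Real.log N ^ b) ≤ (orderOf x : ℝ) →
      Common Nat.totient b ρ N m (orderOf x) := by
  refine ⟨fun k r hk w hw D κ C F hF θ ρ b c hθ hρ hk1 hb hc hcb => ⟨fun he => ?_, ?_⟩, ⟨lm_totient, lm_sigma⟩,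
    fun f b ρ N m w hρ hw hd => common_of_dvd hρ hw hd, fun b ρ N m hρ x hx => common_order hρ x hx⟩
  · exact near_of_few hk κ C hF hθ hρ hk1 hb hc hcb (fun H H' s => not_mono w D _ H H' s)
      ((AlmostAllArguments.result k r w hw D (2 * κ)).1 he)
  · exact near_of_few hk κ C hF hθ hρ hk1 hb hc hcb (fun H H' s => not_mono w D _ H H' s)
      (AlmostAllArguments.result k r w hw D (2 * κ)).2

end Pool.Agent.Results.MP_a57f33_nt.CommonFactors
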