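import Pool.Agent.U536.DS.Scales
import Pool.Agent.Results.MP_a57f33_nt.AlmostAllArguments

/-!
# Relations between motivic multiple zeta values at the integral combinations of two divisors of the values of
# arithmetic functions

A pattern in `k` variables is a nonempty list of letters `b + u_1 s_1 + ... + u_k s_k`; at a tuple `s` of natural numbers
it gives an index. The first letters may be constant. A lift of the real multiple zeta values is a function `Y` from the
indices to a commutative `ℚ`-algebra `M` with a homomorphism `M → ℝ` which maps `Y(u)` to `ζ(u)`: for example the motivic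
multiple zeta values, with the period map. The tuple `s` is bad (for `D`, `H`) if a polynomial relation of degree at most
`D` with integer coefficients at most `H` holds between the values `Y(w_i(s))` of a lift, but is not a consequence of the
stuffle product and of Euler's formula: it fails for a function `Z` from the indices to a commutative `ℚ`-algebra which
satisfies the stuffle product formula and the relations `Z(2 m) = c_m Z(2)^m`, `ζ(2 m) = c_m ζ(2)^m`. Both are
consequences of the regularized double shuffle relations.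

Let `F_1, …, F_k` be positive multiplicative functions of at most polynomial growth such that `F_i p ≤ M p` for the large
primes `p`, with different values at different large primes; for example Euler's function or the sum of the divisors. Let
`μ < b < 1`, `0 ≤ c < 2 b - 1` and `θ ≥ 0` with `k θ < 1`. An argument tuple `m ∈ [1, N] ^ k` is good if for EVERY tuple
`v` of integers `v_i ≥ exp ((log N)^b)` of the form `v_i = h e + h' e'` with divisors `e`, `e'` of `F_i(m_i)` and integers
`|h|, |h'| ≤ exp ((log N)^μ)` (depending on `i`), NO tuple `s` with `|s_i - v_i| ≤ v_i ^ θ` in a cone `T ≤ s_i ≤ κ T` is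
bad for `D` and `H = C ^ T`.

Theorem. For all large `N`, all but `N^k exp (-(log N)^c)` of the `m ∈ [1, N] ^ k` are good, if the constant fronts of the
patterns are even (`2a, ..., 2a`, or empty), unconditionally; for arbitrary patterns the same holds with the relations
between the real multiple zeta values of the (finitely many) fronts in place of Euler's formula. The tuples `v` include
all tuples of large sums and differences `v_i` of ANY two divisors of the `F_i(m_i)`.

Proof. But for few exceptional `m_i ≤ N`, the number of `m_i` with `g ∣ F_i(m_i)` is at most `N τ_J(g) / g` up to a factor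
`exp ((log N)^s)`, `J = (log N)^a`, `a < s < b`, for all `g`: write `m_i = k' u` with `u` squarefree and composed of
primes larger than `N^(1/J)`, `k' ≤ exp (4 (log N)^a)`. Take for `g` the least common multiples of the pairs `(e, e')`:
the sum of `1 / [e, e']` over the pairs `e, e' ≤ X` with `h e + h' e' = w` is at most `4 U (1 + log X) τ(w) / w` if `|h|,
|h'| ≤ U`; the exceptional tuples at all scales together with their windows have a power saving, and Hölder's inequality
for tuples with `τ_J^q ≤ τ_K`, `K ≥ J^q`, bounds the sum over the tuples of pairs. The sums and differences of two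
divisors of `F_i(m_i)` have in general no large common factors with `F_i(m_i)` (hand-in `CommonFactors` of this page). The
file `AlmostAllArguments` of the starting library bounds the number of the bad tuples in the boxes `[N, κ N] ^ k` by `K N
^ (k - 1)`.
-/

set_option autoImplicit false

namespace Pool.Agent.Results.MP_a57f33_nt.DivisorSums

open Pool.Agent.N733.TG (LM lm_totient lm_sigma)
open Pool.Agent.U536.DS (Comb comb_pm comb_orders comb_scales')
open Pool.Agent.Results.MP_a57f33_nt.AlmostAllArguments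
  (Lift EulerFormula NotConsequence)
open Pool.Agent.Results.MP_03df5c_nt.AlmostAllArguments
  (mzv Letter index AdmissiblePattern fronts EvenFront HasStuffle Transfers Few)

/-- For all large `N`, for all but `N^k exp (-(log N)^c)` of the tuples `m ∈ [1, N] ^ k`, for EVERY tuple `v` of integers `v_i
≥ exp ((log N)^b)` of the form `v_i = h e + h' e'`, `e, e' ∣ F_i(m_i)`, `|h|, |h'| ≤ exp ((log N)^μ)`, the property `E (C
^ T)` fails for ALL tuples `s` with `|s_i - v_i| ≤ v_i ^ θ` and `T ≤ s_i ≤ κ T`, `T ≥ 1`. -/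
def FewNear {k : ℕ} (κ : ℕ) (C : ℝ) (F : Fin k → ℕ → ℕ) (θ μ b c : ℝ) (E : ℝ → (Fin k → ℕ) → Prop) : Prop :=
  ∃ N₀ : ℕ, ∀ N : ℕ, N₀ ≤ N →
    ({m : Fin k → ℕ | (∀ i, 1 ≤ m i ∧ m i ≤ N) ∧ ∃ v : Fin k → ℕ, (∀ i, Comb (F i) b μ N (m i) (v i)) ∧
      ∃ (s : Fin k → ℕ) (T : ℕ), 1 ≤ T ∧ (∀ i, T ≤ s i ∧ s i ≤ κ * T) ∧ (∀ i, |(s i : ℝ) - v i| ≤ (v i : ℝ) ^ θ) ∧
      E (C ^ T) s}.ncard : ℝ) ≤ (N : ℝ) ^ k * Real.exp (-(Real.log N ^ c))

lemma pow_bound (C : ℝ) {N T : ℕ} (h : T ≤ 2 * N) : C ^ T ≤ ((max |C| 1) ^ 2) ^ N := by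
  have h5 : (1 : ℝ) ≤ max |C| 1 := le_max_right _ _
  calc C ^ T ≤ |C ^ T| := le_abs_self _
    _ = |C| ^ T := abs_pow C T
    _ ≤ (max |C| 1) ^ T := pow_le_pow_left₀ (abs_nonneg C) (le_max_left _ _) T
    _ ≤ (max |C| 1) ^ (2 * N) := pow_le_pow_right₀ h5 h
    _ = _ := pow_mul _ _ _

lemma near_of_few {k : ℕ} (hk : 1 ≤ k) (κ : ℕ) (C : ℝ) {F : Fin k → ℕ → ℕ} (hF : ∀ i, LM (F i)) {θ μ b c : ℝ} (hθ : 0 ≤ θ)
    (hk1 : k * θ < 1) (hμ : μ < b) (hb : b < 1) (hc : 0 ≤ c) (hcb : c < 2 * b - 1)
    {E : ℝ → (Fin k → ℕ) → Prop} (hE : ∀ H H' s, H ≤ H' → E H s → E H' s)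
    (h : Few (2 * κ) E) : FewNear κ C F θ μ b c E := by
  obtain ⟨K, hK⟩ := h
  obtain ⟨N₁, hN₁⟩ := hK ((max |C| 1) ^ 2)
  obtain ⟨N₀, hN₀⟩ := comb_scales' hk κ (fun T s => E (C ^ T) s)
    (fun N s => E (((max |C| 1) ^ 2) ^ N) s)
    (fun N T s h1 h2 h3 => hE _ _ s (pow_bound C h2.le) h3)
    ⟨K, N₁, fun N hN => hN₁ N hN⟩ hF hθ hk1 hμ hb hc hcb
  refine ⟨N₀, fun N hN => le_trans (le_of_eq ?_) (hN₀ N hN)⟩
  congr 2
  ext m
  constructor
  · rintro ⟨h1, v, hv, s, T, h2, h3, h4, h5⟩
    exact ⟨h1, fun h => h v hv s T h2 h3 h4 h5⟩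
  · rintro ⟨h1, h2⟩
    push Not at h2
    obtain ⟨v, hv, s, T, h2, h3, h4, h5⟩ := h2
    exact ⟨h1, v, hv, s, T, h2, h3, h4, h5⟩

lemma not_mono {k r : ℕ} (w : Fin r → List (Letter k)) (D : ℕ)
    (F : ∀ (A : Type) [CommRing A] [Algebra ℚ A], (List ℕ → A) → Prop) (H H' : ℝ) (s : Fin k → ℕ) (h : H ≤ H')
    (hB : NotConsequence w D F H s) : NotConsequence w D F H' s := by
  obtain ⟨M, i1, i2, Y, A, i3, i4, Z, h1, h2, h3, P, h4, h5, h6⟩ := hB
  exact ⟨M, i1, i2, Y, A, i3, i4, Z, h1, h2, h3, P, h4, fun m => (h5 m).trans h, h6⟩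

/-- **Relations between motivic multiple zeta values at the integral combinations of two divisors of the values of arithmetic
functions.** Let `w_1, ..., w_r` be admissible patterns in `k ≥ 1` variables, `D`, `κ` natural numbers, `C` a real number,
`F_1, ..., F_k` functions with `LM`, `θ ≥ 0`, `k θ < 1`, `μ < b < 1`, `0 ≤ c < 2 b - 1`. For all large `N`, for all but
`N^k exp (-(log N)^c)` of the `m ∈ [1, N] ^ k`, for EVERY tuple `v` of integers `v_i ≥ exp ((log N)^b)` of the form `v_i =
h e + h' e'` with divisors `e`, `e'` of `F_i(m_i)` and integers `|h|, |h'| ≤ exp ((log N)^μ)`, for all tuples `s` with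
`|s_i - v_i| ≤ v_i ^ θ` and `T ≤ s_i ≤ κ T` all relations of degree at most `D` and height at most `C ^ T` between the
values of a lift at the indices `w_i(s)` are consequences of the stuffle product and (1) of Euler's formula, if the fronts
are even, (2) of the relations between the real multiple zeta values of the fronts. Euler's function and the sum of the
divisors satisfy `LM`. The sums and differences `≥ exp ((log N)^b)` of two divisors of `F_i(m_i)` are such integers, and
for Euler's function those of the orders of two units modulo `m_i`. -/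
theorem result :
    (∀ (k r : ℕ), 1 ≤ k → ∀ w : Fin r → List (Letter k), (∀ i, AdmissiblePattern (w i)) → ∀ (D κ : ℕ) (C : ℝ)
      (F : Fin k → ℕ → ℕ), (∀ i, LM (F i)) → ∀ θ μ b c : ℝ, 0 ≤ θ → k * θ < 1 → μ < b →
      b < 1 → 0 ≤ c → c < 2 * b - 1 →
      ((∀ i, EvenFront (w i)) → FewNear κ C F θ μ b c (NotConsequence w D fun _ _ _ Z => EulerFormula Z)) ∧
      FewNear κ C F θ μ b c (NotConsequence w D fun _ _ _ Z => Transfers (fronts w) Z)) ∧
    (LM Nat.totient ∧ LM (fun m => ∑ d ∈ m.divisors, d)) ∧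
    (∀ (f : ℕ → ℕ) (b μ : ℝ) (N m s t : ℕ), s ∣ f m → t ∣ f m →
      (Real.exp (Real.log N ^ b) ≤ ((s + t : ℕ) : ℝ) → Comb f b μ N m (s + t)) ∧
      (Real.exp (Real.log N ^ b) ≤ ((s - t : ℕ) : ℝ) → Comb f b μ N m (s - t)) ∧
      (Real.exp (Real.log N ^ b) ≤ (s : ℝ) → Comb f b μ N m s)) ∧
    ∀ (b μ : ℝ) (N m : ℕ) (x y : (ZMod m)ˣ),
      (Real.exp (Real.log N ^ b) ≤ ((orderOf x + orderOf y : ℕ) : ℝ) → Comb Nat.totient b μ N m (orderOf x + orderOf y)) ∧
      (Real.exp (Real.log N ^ b) ≤ ((orderOf x - orderOf y : ℕ) : ℝ) → Comb Nat.totient b μ N m (orderOf x - orderOf y)) := by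
  refine ⟨fun k r hk w hw D κ C F hF θ μ b c hθ hk1 hμ hb hc hcb => ⟨fun he => ?_, ?_⟩, ⟨lm_totient, lm_sigma⟩,
    fun f b μ N m s t hs ht => comb_pm hs ht, fun b μ N m x y => comb_orders x y⟩
  · exact near_of_few hk κ C hF hθ hk1 hμ hb hc hcb (fun H H' s => not_mono w D _ H H' s)
      ((AlmostAllArguments.result k r w hw D (2 * κ)).1 he)
  · exact near_of_few hk κ C hF hθ hk1 hμ hb hc hcb (fun H H' s => not_mono w D _ H H' s)
      (AlmostAllArguments.result k r w hw D (2 * κ)).2

end Pool.Agent.Results.MP_a57f33_nt.DivisorSums
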