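import Pool.Agent.Results.MP_03df5c_nt.BadHyperplanes
import Pool.Agent.Results.MP_a57f33_nt.AlmostAllArguments

/-!
# MP_a57f33_nt: relations between motivic multiple zeta values follow from the stuffle product and Euler's formula, off a
# bounded number of hyperplanes of arguments

A pattern in `k` variables is a nonempty list of letters `b + u_1 s_1 + ... + u_k s_k`; at a tuple `s` of natural numbers
it gives an index. The first letters may be constant, such as in `ζ(2, 2, 2, s_1, 3, s_1 + s_2)`.

A lift of the real multiple zeta values is a function `Y` from the indices to a commutative `ℚ`-algebra `M` with a
homomorphism `M → ℝ` which maps `Y(u)` to `ζ(u)`: for example the motivic multiple zeta values, with the period map, and the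
real multiple zeta values themselves. A relation between the `Y(w_i(s))` is a consequence of the stuffle product and of
Euler's formula if it holds for every function `Z` from the indices to a commutative `ℚ`-algebra which satisfies the stuffle
product formula and the relations `Z(2 m) = c_m Z(2)^m`, where `c_m` is the rational number with `ζ(2 m) = c_m ζ(2)^m`.
Both are consequences of the regularized double shuffle relations; so such relations are also consequences of the regularized
double shuffle relations, as the question predicts.

We consider the tuples `s` with `2 ≤ s_j ≤ κ N` such that in each of the patterns the first letter which is not constant is at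
least `N`; the other letters may be small, constant or of intermediate size: for instance all indices `(s_1, ..., s_k)` with
`s_1 ≥ N` and arbitrary `s_j ≤ κ N`.

Theorem. (1) Let `w_1, ..., w_r` be admissible patterns in `k` variables for which all the constant first letters are equal
and even, in each pattern (or there are none), and `D`, `κ` natural numbers. There is `K` such that for all `C` and all large
`N` the tuples in this range, at which some polynomial relation of degree at most `D` with integer coefficients at most `C ^ N`
between the values `Y(w_i(s))` of a lift `Y` is NOT a consequence of the stuffle product and of Euler's formula, lie on at most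
`K` hyperplanes `∑ b_j s_j = c` with integral coefficients `|b_j| ≤ K`.
(2) For arbitrary admissible patterns the same holds for the consequences of the stuffle product and of the relations
between the real multiple zeta values of the (finitely many, fixed) fronts.

The theorem `AlmostAllArguments` of this page (helper628) bounds the number of the exceptional tuples in `[N, κ N] ^ k` by
`K N ^ (k - 1)`. This says nothing about families with fewer than `N ^ (k - 1)` tuples, and all the variables have to be large.
The proof uses `Pool.Agent.U553.HY` (elimination between tuples in general position, `Pool.Agent.X90.DC` of the starting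
library) and, for the fronts, `Pool.Agent.N628.MOT` (helper628).
-/

set_option autoImplicit false

namespace Pool.Agent.Results.MP_a57f33_nt.ExceptionalHyperplanes

open Pool.Agent.Results.MP_03df5c_nt.AlmostAllArguments
  (mzv mzv_fun Admissible Letter index AdmissiblePattern constantPart fronts EvenFront HasStuffle Transfers Bad BadFor
    fronts_even st_iff)
open Pool.Agent.Results.MP_03df5c_nt.BadHyperplanes (OnFewHyperplanes part1H)
open Pool.Agent.Results.MP_a57f33_nt.AlmostAllArguments (EulerFormula NotConsequence bad_of)
open Pool.Agent.U553.HY (Range OnHyperplanes)

theorem of_bad {k r : ℕ} (w : Fin r → List (Letter k)) (hw : ∀ i, AdmissiblePattern (w i)) (D κ : ℕ)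
    (F : ∀ (A : Type) [CommRing A] [Algebra ℚ A], (List ℕ → A) → Prop) (h : OnFewHyperplanes w κ (BadFor w D F)) :
    OnFewHyperplanes w κ (NotConsequence w D F) := by
  obtain ⟨K, hK⟩ := h
  refine ⟨K, fun C => ?_⟩
  obtain ⟨N₀, hN⟩ := hK C
  refine ⟨N₀, fun N hN' => (hN N hN').mono ?_⟩
  rintro s ⟨h1, h2⟩
  exact ⟨h1, bad_of w hw D F _ s (fun j => (h1.1 j).1) h2⟩

/-- **Theorem.** Let `w_1, ..., w_r` be admissible patterns in `k` variables and `D`, `κ` natural numbers. There is `K` such
that for all `C` and all large `N` the following tuples `s` lie on at most `K` hyperplanes `∑ b_j s_j = c` with integers `c`
and `b_j`, not all zero, `|b_j| ≤ K`: the tuples with `2 ≤ s_j ≤ κ N`, for which the first letters of the patterns which are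
not constant are at least `N`, such that a polynomial relation of degree at most `D` with integer coefficients of absolute
value at most `C ^ N` holds between the values `Y(w_i(s))` of a lift `Y` of the real multiple zeta values (for example the
motivic ones), and fails for a family `Z` with the stuffle product (1) and Euler's formula, if all constant first letters of
each pattern are equal and even, (2) and the relations between the real multiple zeta values of the fronts, for arbitrary
patterns. -/
theorem result (k r : ℕ) (w : Fin r → List (Letter k)) (hw : ∀ i, AdmissiblePattern (w i)) (D κ : ℕ) :
    ((∀ i, EvenFront (w i)) → OnFewHyperplanes w κ (NotConsequence w D fun _ _ _ Z => EulerFormula Z)) ∧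
    OnFewHyperplanes w κ (NotConsequence w D fun _ _ _ Z => Transfers (fronts w) Z) := by
  have h1 := part1H w hw D κ
  refine ⟨fun he => of_bad w hw D κ _ (h1.mono fun H s => ?_), of_bad w hw D κ _ h1⟩
  rintro ⟨A, i1, i2, Z, hZ, h0, hB⟩
  refine ⟨A, i1, i2, Z, hZ, ?_, hB⟩
  intro f hf
  rw [mzv_fun] at hf
  refine Pool.Agent.N628.MOT.even_transfer_two (fun u : {u : List ℕ // Admissible u ∧ u ∈ fronts w} => u.1)
    (fronts_even w he) Z ((st_iff Z).1 hZ) (fun m hm => h0 m _ hm ?_) f hf
  rw [mzv_fun]
  exact Pool.Agent.N628.MOT.mz_cc m hm

end Pool.Agent.Results.MP_a57f33_nt.ExceptionalHyperplanes
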