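import Pool.Agent.Results.MP_03df5c_nt.PolynomialArguments
import Pool.Agent.Results.MP_a57f33_nt.ExceptionalHyperplanes

/-!
# MP_a57f33_nt: relations between motivic multiple zeta values with arguments near the values of polynomials and of other
# dispersed sequences follow from the stuffle product and Euler's formula

A pattern in `k` variables is a nonempty list of letters `b + u_1 s_1 + ... + u_k s_k`; at a tuple `s` of natural numbers
it gives an index. The values `Y(w_i(s))` of a lift of the real multiple zeta values are considered, for example of the
motivic multiple zeta values. The tuple `s` is bad if a polynomial relation of degree at most `D` with integer coefficients at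
most `H` between them is not a consequence of the stuffle product and of Euler's formula (`Z(2 m) = c_m Z(2)^m`, where
`ζ(2 m) = c_m ζ(2)^m`). Both follow from the regularized double shuffle relations. Real sequences `F_1, ..., F_k` are dispersed
if for every nonzero integer vector `b` the intervals of length two contain a bounded number of the `∑ b_j F_j(n)`; for example
the values of real polynomials of which no nontrivial integer combination is constant.

Theorem. Let `F_1, ..., F_k` be dispersed. For all large `N` and ALL `W` there are at most `K (W + 1)` numbers `n` for which
a tuple `s` near `F(n)`, `|s_j - F_j(n)| ≤ W`, in the range of the scale `N` (`2 ≤ s_j ≤ κ N`, and in each of the patterns the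
first letter which is not constant is at least `N`) is bad for `D` and `H = C ^ N`, if the constant first letters of each
pattern are equal and even (or there are none). For arbitrary patterns such relations are, with the same exceptions,
consequences of the stuffle product and of the relations between the real multiple zeta values of the constant fronts.

So for all but a bounded number of the `n` in `[X, κ X]` the relations of exponential height between motivic multiple zeta
values such as `ζ(n^2, n)`, `ζ(2, 2, n^2 + n, n)` or `ζ([√2 n], [√3 n])` are consequences of the stuffle product and of Euler's
formula, hence of the regularized double shuffle relations. Such one-parameter families have much less than `N ^ (k - 1)`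
members if `k ≥ 2`; so this does not follow from the number of the bad tuples (`AlmostAllArguments`, helper628).
-/

set_option autoImplicit false

namespace Pool.Agent.Results.MP_a57f33_nt.PolynomialArguments

open Pool.Agent.Results.MP_03df5c_nt.AlmostAllArguments (Letter AdmissiblePattern fronts EvenFront Transfers)
open Pool.Agent.Results.MP_03df5c_nt.PolynomialArguments (FewNear fewNear)
open Pool.Agent.Results.MP_a57f33_nt.AlmostAllArguments (EulerFormula NotConsequence)
open Pool.Agent.U553.HY (Dispersed)

/-- **Theorem.** Let `w_1, ..., w_r` be admissible patterns in `k` variables, `D`, `κ` natural numbers and `F_1, ..., F_k` a
dispersed family of real sequences. There is `K` such that for all `C`, all large `N` and all `W` there are at most `K (W + 1)`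
numbers `n` with the following property: there is a tuple `s`, `|s_j - F_j(n)| ≤ W`, `2 ≤ s_j ≤ κ N`, for which the first letters
of the patterns which are not constant are at least `N`, such that a polynomial relation of degree at most `D` with integer
coefficients of absolute value at most `C ^ N` holds between the values `Y(w_i(s))` of a lift `Y` of the real multiple zeta
values (for example the motivic ones), and fails for a family `Z` with the stuffle product (1) and Euler's formula, if all
constant first letters of each pattern are equal and even, (2) and the relations between the real multiple zeta values of the
fronts, for arbitrary patterns. (3) The values of real polynomials of which no nontrivial integer combination is constant are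
a dispersed family. -/
theorem result (k r : ℕ) (w : Fin r → List (Letter k)) (hw : ∀ i, AdmissiblePattern (w i)) (D κ : ℕ) :
    (∀ F : Fin k → ℕ → ℝ, Dispersed F →
      ((∀ i, EvenFront (w i)) → FewNear w κ F (NotConsequence w D fun _ _ _ Z => EulerFormula Z)) ∧
      FewNear w κ F (NotConsequence w D fun _ _ _ Z => Transfers (fronts w) Z)) ∧
    ∀ p : Fin k → Polynomial ℝ, (∀ b : Fin k → ℤ, b ≠ 0 → 0 < (∑ j, (b j : ℝ) • p j).natDegree) →
      Dispersed fun j n => (p j).eval (n : ℝ) := by
  obtain ⟨h1, h2⟩ := ExceptionalHyperplanes.result k r w hw D κ
  exact ⟨fun F hF => ⟨fun he => fewNear hF (h1 he), fewNear hF h2⟩,
    fun p hp => Pool.Agent.U553.HY.dispersed_poly p hp⟩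

end Pool.Agent.Results.MP_a57f33_nt.PolynomialArguments
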